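import Pool.Agent.Y631.FmG

set_option autoImplicit false
set_option linter.unusedSectionVars false

/-! The inequality for random circuits, for any property of graphs. The proof is that of
`Pool.Agent.Y631.core` (by helper631). -/

namespace Pool.Agent.Y630.DM

open Finset H568R2 Pool.Agent.H676 Pool.Agent.Y631

open Classical in
/-- the probability that the random function `f` is right on `G` -/
noncomputable def succ {n : ℕ} {Ω : Type} [Fintype Ω] (μ : Ω → ℝ)
    (f : Ω → SimpleGraph (Fin n) → Bool) (P : SimpleGraph (Fin n) → Prop)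
    (G : SimpleGraph (Fin n)) : ℝ :=
  ∑ ω, μ ω * (if (f ω G = true ↔ P G) then 1 else 0)

section
variable {n D : ℕ} {I B : Type} [Fintype I] [DecidableEq I] [Nonempty I] [Fintype B]
  [DecidableEq B] [Nonempty B]

open Classical in
theorem core {Ω : Type} [Fintype Ω] {μ : Ω → ℝ} (hμ : ∀ ω, 0 ≤ μ ω) (hμ1 : ∑ ω, μ ω = 1)
    {Gr : Fin D → ((B → Bool) → Bool) → (I → Bool) → SimpleGraph (Fin n)}
    {cls : Sym2 (Fin n) → Option (Fin D × I)} (hGr : Own Gr cls) (hD : 0 < D)
    {rw' : I → B} {α : (I → Bool) → B → Bool} (hα : Par rw' α)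
    {P : SimpleGraph (Fin n) → Prop} (hham : ∀ j T x, P (Gr j T x) ↔ T (α x) = true) {l : ℕ}
    (hl : ∀ b, l ≤ (univ.filter (fun i => rw' i = b)).card)
    {K κ t ℓ θ W N : ℕ} (hK : 1 ≤ K) (hℓ : 1 ≤ ℓ) (hθ : 0 < θ) (hW : 0 < W)
    (hN : θ + 2 * ℓ * W ≤ 2 * ℓ * N) (hκ : 4096 * (6 * ℓ) ≤ 4 ^ κ)
    {q : ℝ} (hq : 0 < q) (hq1 : q ≤ 1) (hq2 : 32 * K * 2 ^ κ * q ≤ 1) {δ : ℝ} (hδ : 0 ≤ δ)
    {s w : Ω → ℕ} {f : Ω → SimpleGraph (Fin n) → Bool}
    (hf : ∀ ω, ∃ Φ, Circ K Φ (s ω) (w ω) ∧ f ω ∈ Φ) {η : ℝ}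
    (hcor : ∀ G : SimpleGraph (Fin n), 1 / 2 + η ≤ succ μ f P G) :
    η ≤ K * (∑ ω, μ ω * s ω) / (D * θ) + (∑ ω, μ ω * w ω) / W +
      (fam N (t * 4 ^ t) B).card * 2 ^ Fintype.card B *
        Real.exp (-(2 * δ ^ 2 * 2 ^ Fintype.card B)) +
      320 * N * (32 * K * 2 ^ κ * q) ^ t + Fintype.card B * (1 - q) ^ l + δ := by
  have hwq := wq_nonneg hq.le hq1
  choose Φ hΦ hfΦ using hf
  choose σ hσ hσ2 using fun ω => circ_own hGr (hΦ ω)
  set c : ℝ := 2 ^ Fintype.card I * 2 ^ Fintype.card B with hc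
  have hc0 : 0 < c := by positivity
  set e : ℝ := 320 * N * (32 * K * 2 ^ κ * q) ^ t + Fintype.card B * (1 - q) ^ l + (1 / 2 + δ)
    with he
  have he0 : 0 ≤ e := by
    have : 0 ≤ 1 - q := by linarith
    positivity
  have hθ0 : (0 : ℝ) < θ := by exact_mod_cast hθ
  have hW0 : (0 : ℝ) < W := by exact_mod_cast hW
  have hD0 : (0 : ℝ) < D := by exact_mod_cast hD
  -- the bound for one circuit, one index and one table
  have h1 : ∀ ω j T, Ex (wq q) (fun ρ => AA rw' α T (fun x => f ω (Gr j T x)) ρ) ≤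
      c * (σ ω j / θ + w ω / W + ((if Bad (fam N (t * 4 ^ t) B) δ T then 1 else 0) + e)) := by
    intro ω j T
    have p1 : (0 : ℝ) ≤ σ ω j / θ := by positivity
    have p2 : (0 : ℝ) ≤ w ω / W := by positivity
    have p3 : (0 : ℝ) ≤ (if Bad (fam N (t * 4 ^ t) B) δ T then 1 else 0) := by
      split_ifs <;> norm_num
    have htriv : ∀ X : ℝ, 1 ≤ X →
        Ex (wq q) (fun ρ => AA rw' α T (fun x => f ω (Gr j T x)) ρ) ≤ c * X := by
      intro X hX
      have := Ex_mono hwq (fun ρ => AA_le rw' α T (fun x => f ω (Gr j T x)) ρ)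
      rw [Ex_const (wq_sum q)] at this
      exact this.trans (le_mul_of_one_le_right hc0.le hX)
    by_cases hs : σ ω j ≤ θ
    swap
    · apply htriv
      have : (1 : ℝ) ≤ σ ω j / θ := by
        rw [le_div_iff₀ hθ0, one_mul]
        exact_mod_cast (not_le.1 hs).le
      linarith
    by_cases hw : w ω ≤ W
    swap
    · apply htriv
      have : (1 : ℝ) ≤ w ω / W := by
        rw [le_div_iff₀ hW0, one_mul]
        exact_mod_cast (not_le.1 hw).le
      linarith
    obtain ⟨L, l1, l2, l3⟩ := (hσ2 ω j T).split hℓ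
    have hlen : L.length ≤ N := by
      have e1 : 2 * ℓ * w ω ≤ 2 * ℓ * W := Nat.mul_le_mul_left _ hw
      have e2 : 2 * ℓ * L.length ≤ 2 * ℓ * N := by omega
      exact Nat.le_of_mul_le_mul_left e2 (by omega)
    obtain ⟨L', m1, m2, m3⟩ := l1.pad hlen
    have := core1 hα hl hK hκ hq hq1 hq2 (T := T) hδ m1 m2
      (m3 _ (l2 _ ⟨f ω, hfΦ ω, rfl⟩)) (t := t)
    refine this.trans (mul_le_mul_of_nonneg_left ?_ hc0.le)
    linarith
  -- the sum over the indices and the tables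
  set Tab := Fintype.card ((B → Bool) → Bool) with hTab
  have hTab0 : (0 : ℝ) < Tab := by
    rw [hTab]
    exact_mod_cast Fintype.card_pos
  set bc : ℝ := (((univ : Finset ((B → Bool) → Bool)).filter
    (fun T => Bad (fam N (t * 4 ^ t) B) δ T)).card : ℝ) with hbc
  have h2 : ∀ ω, ∑ j : Fin D, ∑ T : (B → Bool) → Bool,
      Ex (wq q) (fun ρ => AA rw' α T (fun x => f ω (Gr j T x)) ρ) ≤
      c * (Tab * (K * s ω / θ) + D * Tab * (w ω / W) + D * bc + D * Tab * e) := by
    intro ω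
    refine (Finset.sum_le_sum fun j _ => Finset.sum_le_sum fun T _ => h1 ω j T).trans ?_
    simp only [← Finset.mul_sum]
    refine mul_le_mul_of_nonneg_left ?_ hc0.le
    simp only [Finset.sum_add_distrib, Finset.sum_const, Finset.card_univ, nsmul_eq_mul,
      Fintype.card_fin, Finset.sum_boole]
    rw [← Finset.mul_sum, ← Finset.sum_div]
    have e1 : (∑ j, (σ ω j : ℝ)) ≤ K * s ω := by exact_mod_cast hσ ω
    have e2 : (∑ j, (σ ω j : ℝ)) / θ ≤ K * s ω / θ := by gcongr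
    have e3 := mul_le_mul_of_nonneg_left e2 hTab0.le
    have e4 : (D : ℝ) * (Tab * (w ω / W)) = D * Tab * (w ω / W) := by ring
    have e5 : (D : ℝ) * (Tab * e) = D * Tab * e := by ring
    linarith
  -- correctness
  have h3 : ∀ j T ρ, (1 / 2 + η) * c ≤ ∑ ω, μ ω * AA rw' α T (fun x => f ω (Gr j T x)) ρ := by
    intro j T ρ
    have e1 : ∑ ω, μ ω * AA rw' α T (fun x => f ω (Gr j T x)) ρ =
        ∑ z : I → Bool, ∑ y : B → Bool, ∑ ω, μ ω *
          (if f ω (Gr j T (ov ρ (prj rw' (vv rw' ρ) z y))) =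
            T (α (ov ρ (prj rw' (vv rw' ρ) z y))) then (1 : ℝ) else 0) := by
      unfold AA
      simp only [Finset.mul_sum]
      rw [Finset.sum_comm]
      refine Finset.sum_congr rfl fun z _ => ?_
      rw [Finset.sum_comm]
    rw [e1]
    have e2 : ∀ z : I → Bool, ∀ y : B → Bool, 1 / 2 + η ≤ ∑ ω, μ ω *
          (if f ω (Gr j T (ov ρ (prj rw' (vv rw' ρ) z y))) =
            T (α (ov ρ (prj rw' (vv rw' ρ) z y))) then (1 : ℝ) else 0) := by
      intro z y
      refine (hcor (Gr j T (ov ρ (prj rw' (vv rw' ρ) z y)))).trans (le_of_eq ?_)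
      unfold succ
      refine Finset.sum_congr rfl fun ω _ => ?_
      congr 1
      have : (f ω (Gr j T (ov ρ (prj rw' (vv rw' ρ) z y))) = true ↔
          P (Gr j T (ov ρ (prj rw' (vv rw' ρ) z y)))) ↔
          f ω (Gr j T (ov ρ (prj rw' (vv rw' ρ) z y))) =
            T (α (ov ρ (prj rw' (vv rw' ρ) z y))) := by
        rw [hham]
        exact Bool.eq_iff_iff.symm
      simp only [this]
    have e3 : (1 / 2 + η) * c = ∑ _z : I → Bool, ∑ _y : B → Bool, (1 / 2 + η) := by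
      simp only [Finset.sum_const, Finset.card_univ, nsmul_eq_mul]
      rw [hc]
      simp
      ring
    rw [e3]
    exact Finset.sum_le_sum fun z _ => Finset.sum_le_sum fun y _ => e2 z y
  have h4 : ∀ j T, (1 / 2 + η) * c ≤
      ∑ ω, μ ω * Ex (wq q) (fun ρ => AA rw' α T (fun x => f ω (Gr j T x)) ρ) := by
    intro j T
    have e1 := Ex_mono hwq (h3 j T)
    rw [Ex_const (wq_sum q), Ex_sum] at e1
    refine e1.trans (le_of_eq (Finset.sum_congr rfl fun ω _ => ?_))
    rw [Ex_smul]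
  have h5 : D * Tab * ((1 / 2 + η) * c) ≤ ∑ ω, μ ω * (c * (Tab * (K * s ω / θ) +
      D * Tab * (w ω / W) + D * bc + D * Tab * e)) := by
    calc D * Tab * ((1 / 2 + η) * c) = ∑ _j : Fin D, ∑ _T : (B → Bool) → Bool,
          (1 / 2 + η) * c := by
          simp only [Finset.sum_const, Finset.card_univ, nsmul_eq_mul, Fintype.card_fin]
          rw [hTab]
          ring
      _ ≤ ∑ j : Fin D, ∑ T : (B → Bool) → Bool,
          ∑ ω, μ ω * Ex (wq q) (fun ρ => AA rw' α T (fun x => f ω (Gr j T x)) ρ) :=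
          Finset.sum_le_sum fun j _ => Finset.sum_le_sum fun T _ => h4 j T
      _ = ∑ ω, μ ω * ∑ j : Fin D, ∑ T : (B → Bool) → Bool,
          Ex (wq q) (fun ρ => AA rw' α T (fun x => f ω (Gr j T x)) ρ) := by
          simp only [Finset.mul_sum]
          rw [Finset.sum_comm]
          rw [Finset.sum_comm]
          have : ∀ j : Fin D, ∑ T : (B → Bool) → Bool, ∑ ω, μ ω *
              Ex (wq q) (fun ρ => AA rw' α T (fun x => f ω (Gr j T x)) ρ) =
              ∑ ω, ∑ T : (B → Bool) → Bool, μ ω *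
              Ex (wq q) (fun ρ => AA rw' α T (fun x => f ω (Gr j T x)) ρ) :=
            fun j => Finset.sum_comm
          rw [Finset.sum_congr rfl fun j _ => this j]
          exact Finset.sum_comm
      _ ≤ _ := Finset.sum_le_sum fun ω _ => mul_le_mul_of_nonneg_left (h2 ω) (hμ ω)
  have h6 : ∑ ω, μ ω * (c * (Tab * (K * s ω / θ) +
      D * Tab * (w ω / W) + D * bc + D * Tab * e)) =
      D * Tab * c * (K * (∑ ω, μ ω * s ω) / (D * θ) + (∑ ω, μ ω * w ω) / W + bc / Tab + e) := by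
    have e1 : ∀ ω, μ ω * (c * (Tab * (K * s ω / θ) +
      D * Tab * (w ω / W) + D * bc + D * Tab * e)) =
      (c * Tab * (K / θ)) * (μ ω * s ω) + (c * (D * Tab) / W) * (μ ω * w ω) +
        (c * (D * bc + D * Tab * e)) * μ ω := by
      intro ω
      ring
    rw [Finset.sum_congr rfl fun ω _ => e1 ω, Finset.sum_add_distrib, Finset.sum_add_distrib,
      ← Finset.mul_sum, ← Finset.mul_sum, ← Finset.mul_sum, hμ1]
    field_simp
    ring
  rw [h6] at h5
  have h7 : 1 / 2 + η ≤ K * (∑ ω, μ ω * s ω) / (D * θ) + (∑ ω, μ ω * w ω) / W + bc / Tab + e := by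
    have hpos : 0 < D * Tab * c := by positivity
    have e1 : D * Tab * ((1 / 2 + η) * c) = D * Tab * c * (1 / 2 + η) := by ring
    rw [e1] at h5
    exact le_of_mul_le_mul_left h5 hpos
  have h8 : bc / Tab ≤ (fam N (t * 4 ^ t) B).card * 2 ^ Fintype.card B *
        Real.exp (-(2 * δ ^ 2 * 2 ^ Fintype.card B)) := by
    rw [div_le_iff₀ hTab0]
    refine (bad_count (fam N (t * 4 ^ t) B) hδ).trans (le_of_eq ?_)
    have : (Tab : ℝ) = 2 ^ 2 ^ Fintype.card B := by
      rw [hTab]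
      simp
    rw [this]
    ring
  rw [he] at h7
  linarith

end

end Pool.Agent.Y630.DM
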