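import Pool.Agent.Y630.DM.Core
import Pool.Agent.Y631.FmD

set_option autoImplicit false
set_option linter.unusedSectionVars false

/-! Graphs whose cliques look up a table at the parities of the rows. -/

namespace Pool.Agent.Y630.DM

open Finset Pool.Agent.Y631 Pool.Agent.H545R2

/-- the vertices that are used: units (four for every variable), the hub, the rows and the columns
of the table, and universal vertices -/
inductive Wt (m l r : ℕ) : Type
  | unit (k : Fin (m + m) × Fin l) (a b : Bool) : Wt m l r
  | hub : Wt m l r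
  | row (p : Fin m → Bool) : Wt m l r
  | col (p : Fin m → Bool) : Wt m l r
  | uni (c : Fin r) : Wt m l r

variable {m l r : ℕ}

/-- the groups -/
abbrev Gp (m l r : ℕ) : Type := (Fin (m + m) × Fin l) ⊕ (Fin 3 ⊕ Fin r)

/-- the group of a vertex -/
def grp : Wt m l r → Gp m l r
  | .unit k _ _ => Sum.inl k
  | .hub => Sum.inr (Sum.inl 0)
  | .row _ => Sum.inr (Sum.inl 1)
  | .col _ => Sum.inr (Sum.inl 2)
  | .uni c => Sum.inr (Sum.inr c)

/-- compatible vertices -/
def cmp (T : (Fin (m + m) → Bool) → Bool) (x : Fin (m + m) × Fin l → Bool) :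
    Wt m l r → Wt m l r → Prop
  | .unit k _ b, .unit k' a' _ => k.1 = k'.1 → (k'.2 : ℕ) = k.2 + 1 → b = a'
  | .unit k a b, .hub => x k = xor a b ∧ ((k.2 : ℕ) = 0 → a = false)
  | .unit k _ b, .row p => ∀ i, k.1 = Fin.castAdd m i → (k.2 : ℕ) + 1 = l → b = p i
  | .unit k _ b, .col p => ∀ i, k.1 = Fin.natAdd m i → (k.2 : ℕ) + 1 = l → b = p i
  | .row p, .col p' => T (Fin.append p p') = true
  | _, _ => True

/-- the graph on the vertices that are used -/
def Hg (T : (Fin (m + m) → Bool) → Bool) (x : Fin (m + m) × Fin l → Bool) :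
    SimpleGraph (Wt m l r) where
  Adj v w := grp v ≠ grp w ∧ cmp T x v w ∧ cmp T x w v
  symm := ⟨fun _ _ h => ⟨h.1.symm, h.2.2, h.2.1⟩⟩
  loopless := ⟨fun _ h => h.1 rfl⟩

/-- partial parities of a row -/
def pp (x : Fin (m + m) × Fin l → Bool) (i : Fin (m + m)) : ℕ → Bool :=
  strand (fun t => if h : t < l then x (i, ⟨t, h⟩) else false)

lemma pp_zero (x : Fin (m + m) × Fin l → Bool) (i : Fin (m + m)) : pp x i 0 = false := rfl

lemma pp_succ (x : Fin (m + m) × Fin l → Bool) (k : Fin (m + m) × Fin l) :
    pp x k.1 (k.2 + 1) = xor (pp x k.1 k.2) (x k) := by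
  show xor (pp x k.1 k.2) _ = _
  congr 1
  simp

lemma pp_last (x : Fin (m + m) × Fin l → Bool) (i : Fin (m + m)) : pp x i l = par x i := rfl

lemma Hg_clique (hl : 0 < l) (T : (Fin (m + m) → Bool) → Bool)
    (x : Fin (m + m) × Fin l → Bool) :
    (∃ S : Finset (Wt m l r), (Hg T x).IsNClique ((m + m) * l + (3 + r)) S) ↔
      T (par x) = true := by
  classical
  have hcard : Fintype.card (Gp m l r) = (m + m) * l + (3 + r) := by
    simp [Gp]
  constructor
  · rintro ⟨S, hS⟩
    have hadj : ∀ v ∈ S, ∀ w ∈ S, v ≠ w → (Hg T x).Adj v w := fun v hv w hw hne =>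
      hS.1 (Finset.mem_coe.2 hv) (Finset.mem_coe.2 hw) hne
    have hinj : Set.InjOn (grp (m := m) (l := l) (r := r)) S := by
      intro v hv w hw hvw
      by_contra hne
      exact (hadj v hv w hw hne).1 hvw
    have himg : S.image grp = univ := by
      apply Finset.eq_univ_of_card
      rw [Finset.card_image_of_injOn hinj, hS.2, hcard]
    have hsur : ∀ g, ∃ v ∈ S, grp v = g := by
      intro g
      have : g ∈ S.image grp := by rw [himg]; exact Finset.mem_univ g
      obtain ⟨v, hv, hg⟩ := Finset.mem_image.1 this
      exact ⟨v, hv, hg⟩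
    have hunit : ∀ k, ∃ ab : Bool × Bool, Wt.unit k ab.1 ab.2 ∈ S := by
      intro k
      obtain ⟨v, hv, hg⟩ := hsur (Sum.inl k)
      cases v with
      | unit k' a b =>
        have : k' = k := Sum.inl.inj hg
        subst this
        exact ⟨(a, b), hv⟩
      | hub => exact absurd hg (by simp [grp])
      | row p => exact absurd hg (by simp [grp])
      | col p => exact absurd hg (by simp [grp])
      | uni c => exact absurd hg (by simp [grp])
    have hhub : Wt.hub ∈ S := by
      obtain ⟨v, hv, hg⟩ := hsur (Sum.inr (Sum.inl 0))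
      cases v with
      | unit k' a b => exact absurd hg (by simp [grp])
      | hub => exact hv
      | row p => exact absurd hg (by simp [grp])
      | col p => exact absurd hg (by simp [grp])
      | uni c => exact absurd hg (by simp [grp])
    have hrow : ∃ p, Wt.row p ∈ S := by
      obtain ⟨v, hv, hg⟩ := hsur (Sum.inr (Sum.inl 1))
      cases v with
      | unit k' a b => exact absurd hg (by simp [grp])
      | hub => exact absurd hg (by simp [grp])
      | row p => exact ⟨p, hv⟩
      | col p => exact absurd hg (by simp [grp])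
      | uni c => exact absurd hg (by simp [grp])
    have hcol : ∃ p, Wt.col p ∈ S := by
      obtain ⟨v, hv, hg⟩ := hsur (Sum.inr (Sum.inl 2))
      cases v with
      | unit k' a b => exact absurd hg (by simp [grp])
      | hub => exact absurd hg (by simp [grp])
      | row p => exact absurd hg (by simp [grp])
      | col p => exact ⟨p, hv⟩
      | uni c => exact absurd hg (by simp [grp])
    choose ab hab using hunit
    obtain ⟨p, hp⟩ := hrow
    obtain ⟨p', hp'⟩ := hcol
    have h1 : ∀ k, x k = xor (ab k).1 (ab k).2 ∧ ((k.2 : ℕ) = 0 → (ab k).1 = false) := fun k =>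
      (hadj _ (hab k) _ hhub (by simp)).2.1
    have h2 : ∀ k k' : Fin (m + m) × Fin l, k.1 = k'.1 → (k'.2 : ℕ) = k.2 + 1 →
        (ab k).2 = (ab k').1 := by
      intro k k' hk hk'
      have hne : (Wt.unit k (ab k).1 (ab k).2 : Wt m l r) ≠ Wt.unit k' (ab k').1 (ab k').2 := by
        intro h
        simp only [Wt.unit.injEq] at h
        rw [h.1] at hk'
        omega
      exact (hadj _ (hab k) _ (hab k') hne).2.1 hk hk'
    have h3 : ∀ t (ht : t < l) i, (ab (i, ⟨t, ht⟩)).1 = pp x i t ∧
        (ab (i, ⟨t, ht⟩)).2 = pp x i (t + 1) := by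
      intro t
      induction t with
      | zero =>
        intro ht i
        have e1 := h1 (i, ⟨0, ht⟩)
        have e2 : (ab (i, ⟨0, ht⟩)).1 = false := e1.2 rfl
        refine ⟨by rw [e2, pp_zero], ?_⟩
        have e3 := pp_succ x (i, ⟨0, ht⟩)
        simp only at e3
        rw [e3, pp_zero, e1.1, e2]
        simp
      | succ t ih =>
        intro ht i
        have e0 := (ih (by omega) i).2
        have e1 := h1 (i, ⟨t + 1, ht⟩)
        have e2 := h2 (i, ⟨t, by omega⟩) (i, ⟨t + 1, ht⟩) rfl rfl
        have e4 : (ab (i, ⟨t + 1, ht⟩)).1 = pp x i (t + 1) := by rw [← e2, e0]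
        refine ⟨e4, ?_⟩
        have e3 := pp_succ x (i, ⟨t + 1, ht⟩)
        simp only at e3
        rw [e3, e1.1, ← e4]
        cases (ab (i, ⟨t + 1, ht⟩)).1 <;> cases (ab (i, ⟨t + 1, ht⟩)).2 <;> rfl
    have h4 : p = fun i => par x (Fin.castAdd m i) := by
      funext i
      have e1 := (hadj _ (hab (Fin.castAdd m i, ⟨l - 1, by omega⟩)) _ hp (by simp)).2.1 i rfl
        (by simp only; omega)
      rw [← e1, (h3 (l - 1) (by omega) _).2, ← pp_last]
      congr 1
      omega
    have h5 : p' = fun i => par x (Fin.natAdd m i) := by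
      funext i
      have e1 := (hadj _ (hab (Fin.natAdd m i, ⟨l - 1, by omega⟩)) _ hp' (by simp)).2.1 i rfl
        (by simp only; omega)
      rw [← e1, (h3 (l - 1) (by omega) _).2, ← pp_last]
      congr 1
      omega
    have h6 : T (Fin.append p p') = true := (hadj _ hp _ hp' (by simp)).2.1
    rw [h4, h5] at h6
    rwa [show Fin.append (fun i => par x (Fin.castAdd m i)) (fun i => par x (Fin.natAdd m i)) =
        par x from Fin.append_castAdd_natAdd] at h6
  · intro hT
    let F : Gp m l r → Wt m l r := fun g => match g with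
      | Sum.inl k => Wt.unit k (pp x k.1 k.2) (pp x k.1 (k.2 + 1))
      | Sum.inr (Sum.inl 0) => Wt.hub
      | Sum.inr (Sum.inl 1) => Wt.row (fun i => par x (Fin.castAdd m i))
      | Sum.inr (Sum.inl 2) => Wt.col (fun i => par x (Fin.natAdd m i))
      | Sum.inr (Sum.inr c) => Wt.uni c
    have hF : ∀ g, grp (F g) = g := by
      rintro (k | g | c)
      · rfl
      · fin_cases g <;> rfl
      · rfl
    have hFinj : Function.Injective F := fun g g' h => by
      rw [← hF g, h, hF]
    have happ : Fin.append (fun i => par x (Fin.castAdd m i)) (fun i => par x (Fin.natAdd m i)) =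
        par x := Fin.append_castAdd_natAdd
    have hcmp : ∀ g g', cmp T x (F g) (F g') := by
      rintro (k | g | c) (k' | g' | c')
      · show k.1 = k'.1 → (k'.2 : ℕ) = k.2 + 1 → pp x k.1 (k.2 + 1) = pp x k'.1 k'.2
        intro h1 h2
        rw [h1, h2]
      · fin_cases g'
        · show x k = xor (pp x k.1 k.2) (pp x k.1 (k.2 + 1)) ∧ ((k.2 : ℕ) = 0 → pp x k.1 k.2 = false)
          refine ⟨?_, fun h => by rw [h, pp_zero]⟩
          rw [pp_succ]
          cases x k <;> cases pp x k.1 k.2 <;> rfl
        · show ∀ i, k.1 = Fin.castAdd m i → (k.2 : ℕ) + 1 = l → pp x k.1 (k.2 + 1) = par x _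
          intro i h1 h2
          rw [h1, h2, pp_last]
        · show ∀ i, k.1 = Fin.natAdd m i → (k.2 : ℕ) + 1 = l → pp x k.1 (k.2 + 1) = par x _
          intro i h1 h2
          rw [h1, h2, pp_last]
      · trivial
      · fin_cases g <;> trivial
      · fin_cases g <;> fin_cases g' <;> first
          | trivial
          | (show T (Fin.append _ _) = true
             rw [happ]
             exact hT)
      · fin_cases g <;> trivial
      · trivial
      · fin_cases g' <;> trivial
      · trivial
    refine ⟨univ.map ⟨F, hFinj⟩, ?_, by rw [Finset.card_map, Finset.card_univ, hcard]⟩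
    intro v hv w hw hne
    obtain ⟨g, _, rfl⟩ := Finset.mem_map.1 (Finset.mem_coe.1 hv)
    obtain ⟨g', _, rfl⟩ := Finset.mem_map.1 (Finset.mem_coe.1 hw)
    refine ⟨?_, hcmp g g', hcmp g' g⟩
    show grp (F g) ≠ grp (F g')
    rw [hF, hF]
    intro h
    exact hne (by rw [h])

/-- all the vertices: blocks of units, hubs, rows, columns, universal vertices -/
abbrev Zt (nb nh m l r : ℕ) : Type :=
  (Fin nb × ((Fin (m + m) × Fin l) × (Bool × Bool))) ⊕ (Fin nh ⊕
    (((Fin m → Bool) ⊕ (Fin m → Bool)) ⊕ Fin r))

/-- the place with block `β` and hub `h` -/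
def plc {nb nh : ℕ} (β : Fin nb) (h : Fin nh) : Wt m l r ↪ Zt nb nh m l r where
  toFun v := match v with
    | .unit k a b => Sum.inl (β, (k, (a, b)))
    | .hub => Sum.inr (Sum.inl h)
    | .row p => Sum.inr (Sum.inr (Sum.inl (Sum.inl p)))
    | .col p => Sum.inr (Sum.inr (Sum.inl (Sum.inr p)))
    | .uni c => Sum.inr (Sum.inr (Sum.inr c))
  inj' := by
    intro v w hvw
    cases v <;> cases w <;> simp_all

/-- cliques with `s` vertices -/
def HasClq (n s : ℕ) (G : SimpleGraph (Fin n)) : Prop := ∃ S : Finset (Fin n), G.IsNClique s S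

open Classical in
theorem host {n nb nh : ℕ} (hl : 0 < l)
    (hn : nb * (((m + m) * l) * 4) + (nh + ((2 ^ m + 2 ^ m) + r)) ≤ n) :
    ∃ (Gr : Fin (nb * nh) → ((Fin (m + m) → Bool) → Bool) → (Fin (m + m) × Fin l → Bool) →
        SimpleGraph (Fin n))
      (cls : Sym2 (Fin n) → Option (Fin (nb * nh) × (Fin (m + m) × Fin l))),
      Own Gr cls ∧ ∀ j T x, HasClq n ((m + m) * l + (3 + r)) (Gr j T x) ↔ T (par x) = true := by
  have hcard : Fintype.card (Zt nb nh m l r) ≤ Fintype.card (Fin n) := by
    simp only [Zt, Fintype.card_sum, Fintype.card_prod, Fintype.card_fin, Fintype.card_bool,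
      Fintype.card_fun]
    exact hn
  obtain ⟨ι⟩ := Function.Embedding.nonempty_of_card_le hcard
  let em : Fin (nb * nh) → (Wt m l r ↪ Fin n) := fun j =>
    (plc (finProdFinEquiv.symm j).1 (finProdFinEquiv.symm j).2).trans ι
  have hem : ∀ j v, em j v = ι (plc (finProdFinEquiv.symm j).1 (finProdFinEquiv.symm j).2 v) :=
    fun _ _ => rfl
  refine ⟨fun j T x => (Hg T x).map (em j), fun e =>
    if he : ∃ p : (Fin (nb * nh) × (Fin (m + m) × Fin l)) × (Bool × Bool),
        e = s(em p.1.1 (.unit p.1.2 p.2.1 p.2.2), em p.1.1 .hub)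
      then some he.choose.1 else none, ?_, ?_⟩
  · -- uniqueness
    have huniq : ∀ p p' : (Fin (nb * nh) × (Fin (m + m) × Fin l)) × (Bool × Bool),
        s(em p.1.1 (.unit p.1.2 p.2.1 p.2.2), em p.1.1 .hub) =
          s(em p'.1.1 (.unit p'.1.2 p'.2.1 p'.2.2), em p'.1.1 .hub) → p.1 = p'.1 := by
      intro p p' h
      rw [Sym2.eq_iff] at h
      rcases h with ⟨h1, h2⟩ | ⟨h1, h2⟩
      · rw [hem, hem] at h1 h2
        have h3 := ι.injective h1
        have h4 := ι.injective h2
        simp only [plc, Function.Embedding.coeFn_mk, Sum.inl.injEq, Prod.mk.injEq,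
          Sum.inr.injEq] at h3 h4
        have h5 : finProdFinEquiv.symm p.1.1 = finProdFinEquiv.symm p'.1.1 := Prod.ext h3.1 h4
        exact Prod.ext (finProdFinEquiv.symm.injective h5) h3.2.1
      · rw [hem, hem] at h1
        have h3 := ι.injective h1
        simp [plc] at h3
    intro j T x x' e hx
    -- an edge between a unit and the hub
    have hcls : ∀ k a b, e = s(em j (.unit k a b), em j .hub) → x k = x' k := by
      intro k a b he
      apply hx
      have hex : ∃ p : (Fin (nb * nh) × (Fin (m + m) × Fin l)) × (Bool × Bool),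
          e = s(em p.1.1 (.unit p.1.2 p.2.1 p.2.2), em p.1.1 .hub) := ⟨((j, k), (a, b)), he⟩
      simp only
      rw [dif_pos hex]
      congr 1
      have h1 := he.symm.trans hex.choose_spec
      exact (huniq ((j, k), (a, b)) _ h1).symm
    -- one direction
    have key : ∀ x x' : Fin (m + m) × Fin l → Bool,
        (∀ k a b, e = s(em j (.unit k a b), em j .hub) → x k = x' k) →
        e ∈ ((Hg T x).map (em j)).edgeSet → e ∈ ((Hg T x').map (em j)).edgeSet := by
      intro x x' hxx he
      induction e using Sym2.ind with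
      | _ v w =>
        rw [SimpleGraph.mem_edgeSet, SimpleGraph.map_adj] at he ⊢
        obtain ⟨v', w', h, rfl, rfl⟩ := he
        refine ⟨v', w', ⟨h.1, ?_, ?_⟩, rfl, rfl⟩
        · have h2 := h.2.1
          cases v' with
          | unit k a b =>
            cases w' with
            | hub =>
              have e1 := hxx k a b rfl
              show x' k = xor a b ∧ _
              rw [← e1]
              exact h2
            | unit k' a' b' => exact h2
            | row p => exact h2
            | col p => exact h2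
            | uni c => exact h2
          | hub => cases w' <;> exact h2
          | row p => cases w' <;> exact h2
          | col p => cases w' <;> exact h2
          | uni c => cases w' <;> exact h2
        · have h2 := h.2.2
          cases w' with
          | unit k a b =>
            cases v' with
            | hub =>
              have e1 := hxx k a b (Sym2.eq_swap)
              show x' k = xor a b ∧ _
              rw [← e1]
              exact h2
            | unit k' a' b' => exact h2
            | row p => exact h2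
            | col p => exact h2
            | uni c => exact h2
          | hub => cases v' <;> exact h2
          | row p => cases v' <;> exact h2
          | col p => cases v' <;> exact h2
          | uni c => cases v' <;> exact h2
    exact ⟨key x x' hcls, key x' x fun k a b he => (hcls k a b he).symm⟩
  · intro j T x
    rw [← Hg_clique (r := r) hl T x]
    unfold HasClq
    constructor
    · rintro ⟨S, hS⟩
      rw [SimpleGraph.isNClique_map_iff (by omega)] at hS
      obtain ⟨S', h1, _⟩ := hS
      exact ⟨S', h1⟩
    · rintro ⟨S', h1⟩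
      exact ⟨_, h1.map⟩

end Pool.Agent.Y630.DM
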