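import Pool.Agent.Y630.DM.Num
import Pool.Agent.Y631.FmH

set_option autoImplicit false

/-! The theorem for all large `n`. -/

namespace Pool.Agent.Y630.DM

open Pool.Agent.Y631

theorem formula_clique {ε : ℝ} (hε : 0 < ε) : ∃ δ : ℝ, 0 < δ ∧ ∃ n₀ : ℕ, ∀ n c : ℕ, n₀ ≤ n →
    (n : ℝ) ^ ε ≤ c → 2 * c ≤ n →
    ∀ (Ω : Type) [Fintype Ω] (μ : Ω → ℝ), (∀ ω, 0 ≤ μ ω) → ∑ ω, μ ω = 1 →
    ∀ (f : Ω → SimpleGraph (Fin n) → Bool) (s w : Ω → ℕ),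
      (∀ ω, ∃ Φ, Circ ⌊(n : ℝ) ^ δ⌋₊ Φ (s ω) (w ω) ∧ f ω ∈ Φ) →
      (∀ G : SimpleGraph (Fin n), 1 / 2 + (n : ℝ) ^ (-δ) ≤ succ μ f (HasClq n c) G) →
      (n : ℝ) ^ (4 - ε) * c ≤ ∑ ω, μ ω * (s ω + n ^ 2 * c * w ω) := by
  set ε' := min ε 1 with hε'
  have h0 : 0 < ε' := lt_min hε one_pos
  set δ := ε' / 20 with hδ
  have hδ0 : 0 < δ := by positivity
  set t' := ⌈3 / δ⌉₊ with ht'
  obtain ⟨n₀, hn₀⟩ := eventually_params hδ0
    (1000 + 128 * ((2 * t' * 4 ^ (2 * t') : ℕ) : ℝ)) (128 * 2 ^ (2 * t' * 4 ^ (2 * t')))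
  obtain ⟨n₁, hn₁⟩ := eventually_params hδ0 0 (10 ^ 6)
  refine ⟨δ, hδ0, max (max n₀ n₁) 1, fun n c hn hc hcn Ω _ μ hμ hμ1 f s w hf hcor => ?_⟩
  have a1 := hn₀ n ((le_max_left _ _).trans ((le_max_left _ _).trans hn))
  have a2 := hn₁ n ((le_max_right _ _).trans ((le_max_left _ _).trans hn))
  have a3 : 1 ≤ n := (le_max_right _ _).trans hn
  rw [zero_mul, zero_add] at a2
  have hn1 : (1 : ℝ) ≤ n := by exact_mod_cast a3
  have hnn : (0 : ℝ) ≤ n := by linarith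
  have hY20 : ((n : ℝ) ^ δ) ^ 20 = (n : ℝ) ^ ε' := by
    rw [← Real.rpow_natCast, ← Real.rpow_mul hnn]
    congr 1
    rw [hδ]
    push_cast
    ring
  have b1 : ((n : ℝ) ^ δ) ^ 20 ≤ c := by
    rw [hY20]
    exact (Real.rpow_le_rpow_of_exponent_le hn1 (min_le_left _ _)).trans hc
  have b2 : (n : ℝ) ^ 3 ≤ ((n : ℝ) ^ δ) ^ t' := by
    rw [← Real.rpow_natCast, ← Real.rpow_natCast, ← Real.rpow_mul hnn]
    apply Real.rpow_le_rpow_of_exponent_le hn1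
    have : 3 / δ ≤ t' := Nat.le_ceil _
    rw [div_le_iff₀ hδ0] at this
    push_cast
    linarith
  have b3 := numeric b1 hcn b2 a2 a1 hμ hμ1 hf (fun G => by
    have := hcor G
    rw [Real.rpow_neg hnn, ← one_div] at this
    exact this)
  refine le_trans ?_ b3
  rw [hY20]
  have e1 : (n : ℝ) ^ 4 * c / (n : ℝ) ^ ε' = (n : ℝ) ^ (4 - ε') * c := by
    rw [Real.rpow_sub (by linarith)]
    norm_num
    ring
  rw [e1]
  apply mul_le_mul_of_nonneg_right _ (by positivity)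
  apply Real.rpow_le_rpow_of_exponent_le hn1
  have : ε' ≤ ε := min_le_left _ _
  linarith

end Pool.Agent.Y630.DM
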