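import Pool.Agent.Y630.DM.Host
import Pool.Agent.Y631.FmF

set_option autoImplicit false
set_option linter.unusedSectionVars false

/-! The choice of the parameters (following `Pool.Agent.Y631.FmF` by helper631). -/

namespace Pool.Agent.Y630.DM

open Finset Pool.Agent.Y631

/-- the number of the places -/
lemma places {n M : ℕ} (hM : 0 < M) (hMn : 32 * M ≤ n) (hn : 16 ≤ n) :
    (n : ℝ) ^ 2 / (512 * M) ≤ ((n / (16 * M) * (n / 8) : ℕ) : ℝ) := by
  have hM0 : (0 : ℝ) < M := by exact_mod_cast hM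
  have h1 : (n : ℝ) / (32 * M) ≤ ((n / (16 * M) : ℕ) : ℝ) := by
    have e1 : n < 16 * M * (n / (16 * M) + 1) := Nat.lt_mul_div_succ n (by omega)
    have e2 : (n : ℝ) < 16 * M * (((n / (16 * M) : ℕ) : ℝ) + 1) := by exact_mod_cast e1
    have e3 : (32 : ℝ) * M ≤ n := by exact_mod_cast hMn
    rw [div_le_iff₀ (by positivity)]
    nlinarith
  have h2 : (n : ℝ) / 16 ≤ ((n / 8 : ℕ) : ℝ) := by
    have e1 : n ≤ 8 * (n / 8) + 7 := by omega
    have e2 : (n : ℝ) ≤ 8 * ((n / 8 : ℕ) : ℝ) + 7 := by exact_mod_cast e1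
    have e3 : (16 : ℝ) ≤ n := by exact_mod_cast hn
    linarith
  push_cast
  calc (n : ℝ) ^ 2 / (512 * M) = (n : ℝ) / (32 * M) * (n / 16) := by
        field_simp
        norm_num
    _ ≤ _ := mul_le_mul h1 h2 (by positivity) (by positivity)

/-- The numerical part. -/
theorem numeric {n c t' : ℕ} {Y : ℝ} (h3 : Y ^ 20 ≤ c) (hcn : 2 * c ≤ n)
    (h4 : (n : ℝ) ^ 3 ≤ Y ^ t')
    (h1 : 10 ^ 6 ≤ Y) (h2 : (1000 + 128 * ((2 * t' * 4 ^ (2 * t') : ℕ) : ℝ)) * Real.log n +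
      128 * 2 ^ (2 * t' * 4 ^ (2 * t')) ≤ Y)
    {Ω : Type} [Fintype Ω] {μ : Ω → ℝ} (hμ : ∀ ω, 0 ≤ μ ω) (hμ1 : ∑ ω, μ ω = 1)
    {s w : Ω → ℕ} {f : Ω → SimpleGraph (Fin n) → Bool}
    (hf : ∀ ω, ∃ Φ, Circ ⌊Y⌋₊ Φ (s ω) (w ω) ∧ f ω ∈ Φ)
    (hcor : ∀ G : SimpleGraph (Fin n), 1 / 2 + 1 / Y ≤ succ μ f (HasClq n c) G) :
    (n : ℝ) ^ 4 * c / Y ^ 20 ≤ ∑ ω, μ ω * (s ω + n ^ 2 * c * w ω) := by
  classical
  by_contra hcon
  push Not at hcon
  set C : ℝ := (c : ℝ) with hC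
  have hY0 : 0 < Y := by linarith
  have hY1 : 1 ≤ Y := by linarith
  have hC0 : (0 : ℝ) < C := lt_of_lt_of_le (by positivity) h3
  have hCn : 2 * C ≤ n := by
    rw [hC]
    exact_mod_cast hcn
  have hn0 : (0 : ℝ) < n := by linarith
  have hS : ∑ ω, μ ω * (s ω : ℝ) ≤ n ^ 4 * C / Y ^ 20 := by
    refine (Finset.sum_le_sum fun ω _ => ?_).trans hcon.le
    exact mul_le_mul_of_nonneg_left (le_add_of_nonneg_right (by positivity)) (hμ ω)
  have hWw : n ^ 2 * C * ∑ ω, μ ω * (w ω : ℝ) ≤ n ^ 4 * C / Y ^ 20 := by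
    rw [Finset.mul_sum]
    refine (Finset.sum_le_sum fun ω _ => ?_).trans hcon.le
    have : (n : ℝ) ^ 2 * C * (μ ω * w ω) = μ ω * (n ^ 2 * C * w ω) := by ring
    rw [this]
    exact mul_le_mul_of_nonneg_left (le_add_of_nonneg_left (by positivity)) (hμ ω)
  clear hcon
  have hpowY : ∀ a b : ℕ, a ≤ b → Y ^ a ≤ Y ^ b := fun a b hab => pow_le_pow_right₀ hY1 hab
  have hn1 : 1 ≤ n := by exact_mod_cast hn0
  have hCY : ∀ a : ℕ, a ≤ 19 → 10 ^ 6 ≤ C / Y ^ a := by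
    intro a ha
    rw [le_div_iff₀ (by positivity)]
    have e1 : (10 : ℝ) ^ 6 * Y ^ a ≤ Y * Y ^ a := by
      apply mul_le_mul_of_nonneg_right h1 (by positivity)
    have e2 : Y * Y ^ a ≤ Y ^ 20 := by
      rw [← pow_succ']
      exact hpowY _ _ (by omega)
    linarith
  have hnY : ∀ a : ℕ, a ≤ 19 → 10 ^ 6 ≤ (n : ℝ) / Y ^ a := by
    intro a ha
    refine (hCY a ha).trans ?_
    gcongr
    linarith
  have hYn20 : Y ^ 20 ≤ n := by linarith
  have hnge : (10 : ℝ) ^ 6 ≤ n := by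
    have := hnY 0 (by norm_num)
    simpa using this
  set Λ := Real.log n with hΛ
  have hΛ1 : 1 ≤ Λ := by
    rw [hΛ, Real.le_log_iff_exp_le hn0]
    have := Real.exp_one_lt_d9
    linarith
  -- parameters
  obtain ⟨m, hm0, hm1, hm2⟩ := pow_two_near (a := n / Y) (by have := hnY 1 (by norm_num); rw [pow_one] at this; linarith)
  obtain ⟨κ, hκ0, hκ1, hκ2⟩ := pow_two_near (a := C / Y ^ 4) (by have := hCY 4 (by norm_num); linarith)
  set l := ⌊C / Y⌋₊ with hl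
  set ℓ := ⌊C ^ 2 / Y ^ 9⌋₊ with hℓ
  set N := ⌊(n : ℝ) ^ 2 / Y ^ 8⌋₊ with hN
  set K := ⌊Y⌋₊ with hK
  set J := 2 * t' * 4 ^ (2 * t') with hJ
  have hnn : ∀ a : ℕ, a ≤ 19 → (n : ℝ) ≤ (n : ℝ) ^ 2 / Y ^ a := by
    intro a ha
    have : (n : ℝ) ^ 2 / Y ^ a = n * (n / Y ^ a) := by ring
    rw [this]
    exact le_mul_of_one_le_right hn0.le (by have := hnY a ha; linarith)
  have hCC : ∀ a : ℕ, a ≤ 19 → C ≤ C ^ 2 / Y ^ a := by
    intro a ha
    have : C ^ 2 / Y ^ a = C * (C / Y ^ a) := by ring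
    rw [this]
    exact le_mul_of_one_le_right hC0.le (by have := hCY a ha; linarith)
  have hCge : (10 : ℝ) ^ 6 ≤ C := by
    have := hCY 0 (by norm_num)
    simpa using this
  have hl1 : (l : ℝ) ≤ C / Y := Nat.floor_le (by positivity)
  have hl2 : C / Y / 2 ≤ (l : ℝ) := floor_half (by have := hCY 1 (by norm_num); rw [pow_one] at this; linarith)
  have hℓ1 : (ℓ : ℝ) ≤ C ^ 2 / Y ^ 9 := Nat.floor_le (by positivity)
  have hℓ2 : C ^ 2 / Y ^ 9 / 2 ≤ (ℓ : ℝ) := floor_half (by have := hCC 9 (by norm_num); linarith)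
  have hN1 : (N : ℝ) ≤ (n : ℝ) ^ 2 / Y ^ 8 := Nat.floor_le (by positivity)
  have hN2 : (n : ℝ) ^ 2 / Y ^ 8 / 2 ≤ (N : ℝ) := floor_half (by have := hnn 8 (by norm_num); linarith)
  have hK1 : (K : ℝ) ≤ Y := Nat.floor_le hY0.le
  have hK0 : 1 ≤ K := Nat.le_floor (by exact_mod_cast hY1)
  have hℓ0 : 1 ≤ ℓ := Nat.le_floor (by have := hCC 9 (by norm_num); push_cast; linarith)
  have hNge : (n : ℝ) / 2 ≤ N := by
    have := hnn 8 (by norm_num)
    linarith
  have hNge' : (4 : ℝ) ≤ N := by linarith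
  have hN4 : 4 ≤ N := by exact_mod_cast hNge'
  have hl0 : 0 < l := by
    have := hCY 1 (by norm_num)
    rw [pow_one] at this
    have : (0 : ℝ) < l := by linarith
    exact_mod_cast this
  -- the size of m
  have hdivle : (n : ℝ) / Y ≤ n := div_le_self hn0.le hY1
  have hmn : (2 : ℝ) ^ m ≤ n := hm1.trans hdivle
  have hmΛ : (m : ℝ) ≤ 2 * Λ := by
    have e1 : (m : ℝ) * Real.log 2 ≤ Λ := by
      rw [← Real.log_pow, hΛ]
      exact Real.log_le_log (by positivity) hmn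
    have e2 := Real.log_two_gt_d9
    have e3 : (0 : ℝ) ≤ m := by positivity
    have e4 : (m : ℝ) * (1 / 2) ≤ m * Real.log 2 := mul_le_mul_of_nonneg_left (by linarith) e3
    linarith
  have hYΛ : 1000 * Λ ≤ Y := by
    have e1 : (0 : ℝ) ≤ 128 * (J : ℝ) * Λ := by positivity
    have e2 : (0 : ℝ) ≤ 128 * 2 ^ J := by positivity
    have e3 : (1000 + 128 * (J : ℝ)) * Λ = 1000 * Λ + 128 * (J : ℝ) * Λ := by ring
    linarith
  have hmm : ((m + m : ℕ) : ℝ) ≤ 4 * Λ := by push_cast; linarith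
  -- the number of the variables
  set M := (m + m) * l with hM
  have hM0 : 0 < M := Nat.mul_pos (by omega) hl0
  have hM0' : (0 : ℝ) < M := by exact_mod_cast hM0
  have hMr : (M : ℝ) ≤ 4 * Λ * (C / Y) := by
    rw [hM, Nat.cast_mul]
    exact mul_le_mul hmm hl1 (by positivity) (by positivity)
  have hMC : 250 * (M : ℝ) ≤ C := by
    have e1 : 4 * Λ * (C / Y) = (1000 * Λ) * (C / Y) / 250 := by ring
    have e2 : (1000 * Λ) * (C / Y) ≤ Y * (C / Y) :=
      mul_le_mul_of_nonneg_right hYΛ (by positivity)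
    have e3 : Y * (C / Y) = C := by field_simp
    linarith
  have hMc : 250 * M ≤ c := by
    have : 250 * (M : ℝ) ≤ (c : ℝ) := hMC
    exact_mod_cast this
  have hc6 : 10 ^ 6 ≤ c := by
    have : (10 : ℝ) ^ 6 ≤ (c : ℝ) := hCge
    exact_mod_cast this
  have hMc3 : M + 3 ≤ c := by omega
  set r := c - (M + 3) with hr
  have hcr : (m + m) * l + (3 + r) = c := by
    rw [← hM]
    omega
  set nb := n / (16 * M) with hnb
  set nh := n / 8 with hnh
  have h2m : 16 * 2 ^ m ≤ n := by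
    have : ((16 * 2 ^ m : ℕ) : ℝ) ≤ n := by
      push_cast
      have e1 : 16 * ((n : ℝ) / Y) ≤ n := by
        have : 16 * ((n : ℝ) / Y) = n * (16 / Y) := by ring
        rw [this]
        have e2 : 16 / Y ≤ 1 := by
          rw [div_le_one hY0]
          linarith
        exact mul_le_of_le_one_right hn0.le e2
      linarith
    exact_mod_cast this
  have hfit : nb * (((m + m) * l) * 4) + (nh + ((2 ^ m + 2 ^ m) + r)) ≤ n := by
    have e1 : nb * (((m + m) * l) * 4) * 4 ≤ n := by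
      rw [← hM]
      calc nb * (M * 4) * 4 = n / (16 * M) * (16 * M) := by rw [hnb]; ring
        _ ≤ n := Nat.div_mul_le_self _ _
    have e2 : nh * 8 ≤ n := Nat.div_mul_le_self _ _
    generalize nb * (((m + m) * l) * 4) = X1 at e1 ⊢
    generalize 2 ^ m = X2 at h2m ⊢
    omega
  have hDr0 := places hM0 (n := n) (by omega) (by omega)
  rw [← hnb, ← hnh] at hDr0
  have hDr : (n : ℝ) ^ 2 / (4 * C) ≤ ((nb * nh : ℕ) : ℝ) := by
    refine le_trans ?_ hDr0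
    apply div_le_div_of_nonneg_left (by positivity) (by positivity)
    have e1 : 512 * (4 * Λ * (C / Y)) = 2048 * Λ * (C / Y) := by ring
    have e2 : 2048 * Λ * (C / Y) ≤ (3 * Y) * (C / Y) :=
      mul_le_mul_of_nonneg_right (by linarith) (by positivity)
    have e3 : (3 * Y) * (C / Y) = 3 * C := by field_simp
    linarith
  have hD0' : (0 : ℝ) < ((nb * nh : ℕ) : ℝ) := lt_of_lt_of_le (by positivity) hDr
  have hD0 : 0 < nb * nh := by exact_mod_cast hD0'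
  obtain ⟨Gr, cls, hown, hham⟩ := host (r := r) hl0 hfit
  rw [hcr] at hham
  haveI : Nonempty (Fin (m + m)) := ⟨⟨0, by omega⟩⟩
  haveI : Nonempty (Fin (m + m) × Fin l) := ⟨(⟨0, by omega⟩, ⟨0, hl0⟩)⟩
  set W := N / 2 with hW
  have hW2 : (N : ℝ) / 4 ≤ W := by
    have e : N ≤ 2 * W + 1 := by omega
    have e' : (N : ℝ) ≤ 2 * W + 1 := by exact_mod_cast e
    linarith
  have hW0 : 0 < W := by omega
  set q : ℝ := Y ^ 2 / C with hq
  have hq0 : 0 < q := by positivity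
  have hY4C : Y ^ 4 ≤ C := (hpowY 4 20 (by norm_num)).trans h3
  have hq1 : q ≤ 1 := by
    rw [hq, div_le_one hC0]
    exact (hpowY 2 4 (by norm_num)).trans hY4C
  have hKq : 32 * (K : ℝ) * 2 ^ κ * q ≤ 32 / Y := by
    calc 32 * (K : ℝ) * 2 ^ κ * q ≤ 32 * Y * (C / Y ^ 4) * (Y ^ 2 / C) := by
          rw [hq]
          gcongr
      _ = 32 / Y := by field_simp
  have h32 : 32 / Y ≤ 1 := by
    rw [div_le_one hY0]
    linarith
  have hκ' : 4096 * (6 * ℓ) ≤ 4 ^ κ := by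
    have : ((4096 * (6 * ℓ) : ℕ) : ℝ) ≤ ((4 ^ κ : ℕ) : ℝ) := by
      push_cast
      have e1 : (4 : ℝ) ^ κ = 2 ^ κ * 2 ^ κ := by
        rw [← mul_pow]; norm_num
      have e2 : C / Y ^ 4 / 2 ≤ (2 : ℝ) ^ κ := by linarith
      have e3 : (C / Y ^ 4 / 2) * (C / Y ^ 4 / 2) ≤ (2 : ℝ) ^ κ * 2 ^ κ :=
        mul_le_mul e2 e2 (by positivity) (by positivity)
      have e4 : (C / Y ^ 4 / 2) * (C / Y ^ 4 / 2) = (C ^ 2 / Y ^ 9) * (Y / 4) := by
        field_simp
        norm_num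
      rw [e1]
      refine le_trans ?_ e3
      rw [e4]
      have e5 : 0 ≤ C ^ 2 / Y ^ 9 := by positivity
      calc 4096 * (6 * (ℓ : ℝ)) = (ℓ : ℝ) * 24576 := by ring
        _ ≤ (C ^ 2 / Y ^ 9) * 24576 := by gcongr
        _ ≤ (C ^ 2 / Y ^ 9) * (Y / 4) := by gcongr; linarith
    exact_mod_cast this
  have hrow : ∀ b : Fin (m + m), l ≤
      (univ.filter (fun i : Fin (m + m) × Fin l => i.1 = b)).card := by
    intro b
    have : (univ : Finset (Fin l)).card ≤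
        (univ.filter (fun i : Fin (m + m) × Fin l => i.1 = b)).card :=
      Finset.card_le_card_of_injOn (fun t => (b, t)) (fun t _ => by simp)
        (fun t _ t' _ h => (Prod.mk.inj h).2)
    simpa using this
  have hθ0 : 0 < ℓ * N := Nat.mul_pos (by omega) (by omega)
  -- the terms
  have T1 : K * (∑ ω, μ ω * (s ω : ℝ)) / (((nb * nh : ℕ) : ℝ) * ((ℓ * N : ℕ) : ℝ)) ≤
      16 / Y ^ 2 := by
    have hlow : (n : ℝ) ^ 2 / (4 * C) * (C ^ 2 / Y ^ 9 / 2 * ((n : ℝ) ^ 2 / Y ^ 8 / 2)) ≤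
        ((nb * nh : ℕ) : ℝ) * ((ℓ * N : ℕ) : ℝ) := by
      refine mul_le_mul hDr ?_ (by positivity) (by positivity)
      rw [Nat.cast_mul ℓ N]
      gcongr
    have hup : K * (∑ ω, μ ω * (s ω : ℝ)) ≤ Y * (n ^ 4 * C / Y ^ 20) :=
      mul_le_mul hK1 hS (Finset.sum_nonneg fun ω _ => mul_nonneg (hμ ω) (by positivity))
        (by positivity)
    calc K * (∑ ω, μ ω * (s ω : ℝ)) / (((nb * nh : ℕ) : ℝ) * ((ℓ * N : ℕ) : ℝ))
        ≤ Y * (n ^ 4 * C / Y ^ 20) / ((n : ℝ) ^ 2 / (4 * C) * (C ^ 2 / Y ^ 9 / 2 *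
          ((n : ℝ) ^ 2 / Y ^ 8 / 2))) := by
          gcongr
      _ = 16 / Y ^ 2 := by
          field_simp
          norm_num
  have T2 : (∑ ω, μ ω * (w ω : ℝ)) / W ≤ 8 / Y ^ 12 := by
    have hup : (∑ ω, μ ω * (w ω : ℝ)) ≤ n ^ 2 / Y ^ 20 := by
      have e : (n : ℝ) ^ 4 * C / Y ^ 20 = n ^ 2 * C * (n ^ 2 / Y ^ 20) := by ring
      rw [e] at hWw
      exact le_of_mul_le_mul_left hWw (by positivity)
    have hlow : (n : ℝ) ^ 2 / Y ^ 8 / 8 ≤ W := by linarith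
    calc (∑ ω, μ ω * (w ω : ℝ)) / W ≤ (n ^ 2 / Y ^ 20) / ((n : ℝ) ^ 2 / Y ^ 8 / 8) := by
          gcongr
      _ = 8 / Y ^ 12 := by
          field_simp
  have hnexp : Real.exp (-(n : ℝ)) ≤ 1 / n := by
    rw [Real.exp_neg, ← one_div]
    apply one_div_le_one_div_of_le hn0
    have := Real.add_one_le_exp (n : ℝ)
    linarith
  have hYn : Y ≤ n := by
    have := (hpowY 1 20 (by norm_num)).trans hYn20
    rwa [pow_one] at this
  have hn_mm : m + m ≤ n := by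
    have e : ((m + m : ℕ) : ℝ) ≤ n := by
      have h0 : (0 : ℝ) ≤ Λ := by linarith
      linarith
    exact_mod_cast e
  have T3 : (fam N (2 * t' * 4 ^ (2 * t')) (Fin (m + m))).card * 2 ^ Fintype.card (Fin (m + m)) *
        Real.exp (-(2 * (1 / Y ^ 2) ^ 2 * 2 ^ Fintype.card (Fin (m + m)))) ≤ 1 / n := by
    have hNn : N + 1 ≤ n ^ 2 := by
      have e1 : (N : ℝ) + 1 ≤ n ^ 2 := by
        have e2 : (n : ℝ) ^ 2 / Y ^ 8 ≤ n ^ 2 / 2 := by
          gcongr
          have : Y ^ 1 ≤ Y ^ 8 := hpowY 1 8 (by norm_num)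
          rw [pow_one] at this
          linarith
        have e3 : (n : ℝ) ≤ n ^ 2 := le_self_pow₀ (by linarith) (by norm_num)
        linarith
      exact_mod_cast e1
    have b1 := fam_bound (J := J) hn1 hNn (by exact_mod_cast hmn) hn_mm
    refine (mul_le_mul_of_nonneg_right b1 (Real.exp_pos _).le).trans ?_
    rw [← Real.exp_add]
    refine le_trans (Real.exp_le_exp.2 ?_) hnexp
    rw [← hΛ]
    -- exponent
    have e1 : 12 * Λ + 64 * (J * Λ + 2 ^ J) ≤ Y / 2 := by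
      have : (1000 + 128 * (J : ℝ)) * Λ = 1000 * Λ + 128 * ((J : ℝ) * Λ) := by ring
      linarith
    have e2 : (N : ℝ) * (12 * Λ + 64 * (J * Λ + 2 ^ J)) ≤ (n : ℝ) ^ 2 / Y ^ 8 * (Y / 2) :=
      mul_le_mul hN1 e1 (by positivity) (by positivity)
    have e3 : (n : ℝ) ^ 2 / Y ^ 8 * (Y / 2) = n ^ 2 / Y ^ 6 * (1 / (2 * Y)) := by
      field_simp
    have e4 : n / Y / 2 ≤ (2 : ℝ) ^ m := by linarith
    have e5 : (n / Y / 2) * (n / Y / 2) ≤ (2 : ℝ) ^ Fintype.card (Fin (m + m)) := by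
      rw [Fintype.card_fin, pow_add]
      exact mul_le_mul e4 e4 (by positivity) (by positivity)
    have e6 : 2 * (1 / Y ^ 2) ^ 2 * ((n / Y / 2) * (n / Y / 2)) = n ^ 2 / Y ^ 6 * (1 / 2) := by
      field_simp
    have e7 : n ^ 2 / Y ^ 6 * (1 / 2) ≤
        2 * (1 / Y ^ 2) ^ 2 * (2 : ℝ) ^ Fintype.card (Fin (m + m)) := by
      rw [← e6]
      gcongr
    have e8 : (1 : ℝ) / (2 * Y) ≤ 1 / 8 := by
      apply one_div_le_one_div_of_le (by norm_num)
      linarith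
    have e9 : (0 : ℝ) ≤ n ^ 2 / Y ^ 6 := by positivity
    have e10 : (n : ℝ) ^ 2 / Y ^ 6 * (1 / (2 * Y)) ≤ n ^ 2 / Y ^ 6 * (1 / 8) := by gcongr
    have e11 : 10 ^ 6 * (n : ℝ) ≤ n ^ 2 / Y ^ 6 := by
      have : (n : ℝ) ^ 2 / Y ^ 6 = (n / Y ^ 6) * n := by ring
      rw [this]
      exact mul_le_mul_of_nonneg_right (hnY 6 (by norm_num)) hn0.le
    have e12 : Λ ≤ n := by linarith
    linarith
  have T4 : 320 * N * (32 * K * 2 ^ κ * q) ^ (2 * t') ≤ 320 / n := by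
    have e1 : (32 * (K : ℝ) * 2 ^ κ * q) ^ (2 * t') ≤ 1 / n ^ 3 := by
      calc (32 * (K : ℝ) * 2 ^ κ * q) ^ (2 * t') ≤ (32 / Y) ^ (2 * t') :=
            pow_le_pow_left₀ (by positivity) hKq _
        _ = ((32 / Y) ^ 2) ^ t' := by rw [pow_mul]
        _ ≤ (1 / Y) ^ t' := by
            apply pow_le_pow_left₀ (by positivity)
            rw [div_pow, div_le_div_iff₀ (by positivity) hY0, sq Y]
            have : 1024 * Y ≤ Y * Y := mul_le_mul_of_nonneg_right (by linarith) hY0.le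
            linarith
        _ = 1 / Y ^ t' := by rw [one_div_pow]
        _ ≤ 1 / n ^ 3 := one_div_le_one_div_of_le (by positivity) h4
    have e2 : (N : ℝ) ≤ n ^ 2 := by
      refine hN1.trans ?_
      exact div_le_self (by positivity) (one_le_pow₀ hY1)
    calc 320 * N * (32 * K * 2 ^ κ * q) ^ (2 * t') ≤ 320 * (n : ℝ) ^ 2 * (1 / n ^ 3) := by
          gcongr
      _ = 320 / n := by field_simp
  have T5 : Fintype.card (Fin (m + m)) * (1 - q) ^ l ≤ 1 / n := by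
    have e1 : (1 - q) ^ l ≤ Real.exp (-(3 * Λ)) := by
      have e2 : 1 - q ≤ Real.exp (-q) := by
        have := Real.add_one_le_exp (-q)
        linarith
      calc (1 - q) ^ l ≤ (Real.exp (-q)) ^ l := pow_le_pow_left₀ (by linarith) e2 _
        _ = Real.exp (l * (-q)) := by rw [← Real.exp_nat_mul]
        _ ≤ Real.exp (-(3 * Λ)) := by
            apply Real.exp_le_exp.2
            have e3 : (C / Y / 2) * q ≤ l * q := mul_le_mul_of_nonneg_right hl2 hq0.le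
            have e4 : (C / Y / 2) * q = Y / 2 := by
              rw [hq]
              field_simp
            linarith
    have e5 : Real.exp (-(3 * Λ)) = 1 / n ^ 3 := by
      rw [Real.exp_neg, show 3 * Λ = (3 : ℕ) * Λ by norm_num, Real.exp_nat_mul, hΛ,
        Real.exp_log hn0, one_div]
    rw [e5] at e1
    rw [Fintype.card_fin]
    have e6 : ((m + m : ℕ) : ℝ) ≤ n := by exact_mod_cast hn_mm
    have e7 : (0 : ℝ) ≤ (1 - q) ^ l := pow_nonneg (by linarith) _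
    calc ((m + m : ℕ) : ℝ) * (1 - q) ^ l ≤ n * (1 / n ^ 3) := by gcongr
      _ = 1 / n * (1 / n) := by field_simp
      _ ≤ 1 / n * 1 := by
          gcongr
          rw [div_le_one hn0]
          linarith
      _ = 1 / n := by ring
  have hmain := core (D := nb * nh) hμ hμ1 hown hD0 par_Par hham hrow hK0 hℓ0 hθ0 hW0 (N := N)
    (by
      have : 2 * ℓ * W ≤ ℓ * N := by
        have : 2 * W ≤ N := by omega
        calc 2 * ℓ * W = ℓ * (2 * W) := by ring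
          _ ≤ ℓ * N := Nat.mul_le_mul_left _ this
      have e : 2 * ℓ * N = ℓ * N + ℓ * N := by ring
      omega) hκ' hq0 hq1 (hKq.trans h32) (δ := 1 / Y ^ 2) (by positivity) (t := 2 * t') hf
    (η := 1 / Y) hcor
  have hYn : 1 / (n : ℝ) ≤ 1 / Y ^ 2 :=
    one_div_le_one_div_of_le (by positivity) ((hpowY 2 20 (by norm_num)).trans hYn20)
  have hY12 : 8 / Y ^ 12 ≤ 8 / Y ^ 2 :=
    div_le_div_of_nonneg_left (by norm_num) (by positivity) (hpowY 2 12 (by norm_num))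
  have h320 : 320 / (n : ℝ) = 320 * (1 / n) := by ring
  have hsum : 1 / Y ≤ 400 / Y ^ 2 := by
    have e1 : 16 / Y ^ 2 = 16 * (1 / Y ^ 2) := by ring
    have e2 : 8 / Y ^ 2 = 8 * (1 / Y ^ 2) := by ring
    have e3 : 400 / Y ^ 2 = 400 * (1 / Y ^ 2) := by ring
    have e4 : 0 ≤ 1 / Y ^ 2 := by positivity
    linarith
  rw [div_le_div_iff₀ hY0 (by positivity), sq Y] at hsum
  have hfin : 400 * Y < Y * Y := mul_lt_mul_of_pos_right (by linarith) hY0
  linarith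

end Pool.Agent.Y630.DM
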